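import Mathlib

set_option autoImplicit false

/-!
# A solvable distribution on the 4 × 6 grid with an interior vertex of value 23/16

The distribution
```
0 2 0 0 3 1
0 0 0 0 0 0
0 0 0 0 0 0
4 0 0 0 0 8
```
is solvable, and the interior vertex in row 1 and column 2 (counted from 0) has value `23/16 < 3/2`.
-/

namespace Pool.Agent.Results.MP_33b0ad_co.FourBySix

/-- Two squares of the `m × n` board are adjacent when they share a side. -/
def SharesSide {m n : ℕ} (x y : Fin m × Fin n) : Prop :=
  (x.1 = y.1 ∧ (x.2.val + 1 = y.2.val ∨ y.2.val + 1 = x.2.val)) ∨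
    (x.2 = y.2 ∧ (x.1.val + 1 = y.1.val ∨ y.1.val + 1 = x.1.val))

instance {m n : ℕ} (x y : Fin m × Fin n) : Decidable (SharesSide x y) := by
  unfold SharesSide; infer_instance

/-- The `m × n` grid graph. -/
def grid (m n : ℕ) : SimpleGraph (Fin m × Fin n) where
  Adj x y := SharesSide x y
  symm := ⟨fun x y h => by unfold SharesSide at *; omega⟩
  loopless := ⟨fun x h => by unfold SharesSide at h; omega⟩

/-- A vertex of the grid is interior if it is not in the first or last row or column. -/
def Interior {m n : ℕ} (x : Fin m × Fin n) : Prop :=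
  0 < x.1.val ∧ x.1.val + 1 < m ∧ 0 < x.2.val ∧ x.2.val + 1 < n

/-- The distribution after a pebbling move from `a` to `b`: two pebbles are taken off `a` and one is
put on `b`. -/
def afterMove {V : Type} [DecidableEq V] (P : V → ℕ) (a b : V) : V → ℕ :=
  fun v => if v = a then P a - 2 else if v = b then P b + 1 else P v

/-- `Q` arises from `P` by one pebbling move in the graph `G`. -/
def Move {V : Type} [DecidableEq V] (G : SimpleGraph V) (P Q : V → ℕ) : Prop :=
  ∃ a b, G.Adj a b ∧ 2 ≤ P a ∧ Q = afterMove P a b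

/-- The vertex `y` is reachable under `P`. -/
def CanReach {V : Type} [DecidableEq V] (G : SimpleGraph V) (P : V → ℕ) (y : V) : Prop :=
  ∃ Q, Relation.ReflTransGen (Move G) P Q ∧ 1 ≤ Q y

/-- `P` is solvable: every vertex is reachable. -/
def Solvable {V : Type} [DecidableEq V] (G : SimpleGraph V) (P : V → ℕ) : Prop :=
  ∀ y, CanReach G P y

/-- The value of the vertex `x` with respect to `P`. -/
noncomputable def value {V : Type} [Fintype V] (G : SimpleGraph V) (P : V → ℕ) (x : V) : ℝ :=
  ∑ y, (P y : ℝ) * (1 / 2 : ℝ) ^ (G.dist x y)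

/-! ### Distances in the grid -/

/-- The sum of the coordinate distances. -/
def manh {m n : ℕ} (x y : Fin m × Fin n) : ℕ :=
  (x.1.val - y.1.val) + (y.1.val - x.1.val) + ((x.2.val - y.2.val) + (y.2.val - x.2.val))

theorem manh_le_length {m n : ℕ} {x y : Fin m × Fin n} (p : (grid m n).Walk x y) :
    manh x y ≤ p.length := by
  induction p with
  | nil => simp [manh]
  | @cons u v w h p ih =>
    rw [SimpleGraph.Walk.length_cons]
    have h' : SharesSide u v := h
    unfold SharesSide at h'
    unfold manh at *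
    omega

theorem manh_le_dist {m n : ℕ} {x y : Fin m × Fin n} (h : (grid m n).Reachable x y) :
    manh x y ≤ (grid m n).dist x y := by
  obtain ⟨p, hp⟩ := h.exists_walk_length_eq_dist
  rw [← hp]
  exact manh_le_length p

/-! ### Checking move sequences -/

/-- Execute a list of moves and check that they are allowed and that `y` carries a pebble at the
end. -/
def check {m n : ℕ} : List ((Fin m × Fin n) × (Fin m × Fin n)) → (Fin m × Fin n → ℕ) →
    Fin m × Fin n → Bool
  | [], P, y => decide (1 ≤ P y)
  | (a, b) :: l, P, y => decide (SharesSide a b) && decide (2 ≤ P a) && check l (afterMove P a b) y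

theorem canReach_of_check {m n : ℕ} (l : List ((Fin m × Fin n) × (Fin m × Fin n))) :
    ∀ (P : Fin m × Fin n → ℕ) (y : Fin m × Fin n), check l P y = true → CanReach (grid m n) P y := by
  induction l with
  | nil =>
    intro P y h
    exact ⟨P, Relation.ReflTransGen.refl, by simpa [check] using h⟩
  | cons ab l ih =>
    obtain ⟨a, b⟩ := ab
    intro P y h
    simp only [check, Bool.and_eq_true, decide_eq_true_eq] at h
    obtain ⟨Q, hQ, hy⟩ := ih _ _ h.2
    exact ⟨Q, Relation.ReflTransGen.head ⟨a, b, h.1.1, h.1.2, rfl⟩ hQ, hy⟩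

/-! ### The distribution -/

/-- The distribution on the 4 × 6 grid. -/
def P : Fin 4 × Fin 6 → ℕ := fun v =>
  if v = (0, 1) then 2 else if v = (0, 4) then 3 else if v = (0, 5) then 1 else
    if v = (3, 0) then 4 else if v = (3, 5) then 8 else 0

/-- The squares are numbered row by row. -/
def cell (k : ℕ) : Fin 4 × Fin 6 := (Fin.ofNat 4 (k / 6), Fin.ofNat 6 (k % 6))

/-- For every target square a sequence of moves. -/
def moves : List (List (ℕ × ℕ)) :=
  [[(1, 0)],
   [],
   [(1, 2)],
   [(4, 3)],
   [],
   [],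
   [(18, 12), (18, 12), (12, 6)],
   [(1, 7)],
   [(1, 2), (4, 3), (23, 17), (23, 17), (17, 11), (23, 17), (23, 17), (17, 11), (11, 5), (5, 4), (4, 3), (3, 2), (2, 8)],
   [(4, 10), (23, 17), (23, 17), (17, 11), (23, 17), (23, 17), (17, 11), (11, 10), (10, 9)],
   [(4, 10)],
   [(4, 5), (5, 11)],
   [(18, 12)],
   [(18, 12), (18, 12), (12, 13)],
   [(18, 19), (18, 19), (19, 20), (23, 22), (23, 22), (22, 21), (23, 22), (23, 22), (22, 21), (21, 20), (20, 14)],
   [(23, 17), (23, 17), (17, 16), (23, 17), (23, 17), (17, 16), (16, 15)],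
   [(23, 17), (23, 17), (17, 16)],
   [(23, 17)],
   [],
   [(18, 19)],
   [(18, 19), (18, 19), (19, 20)],
   [(23, 22), (23, 22), (22, 21)],
   [(23, 22)],
   []]

/-- The sequence of moves for the target `y`. -/
def movesTo (y : Fin 4 × Fin 6) : List ((Fin 4 × Fin 6) × (Fin 4 × Fin 6)) :=
  (moves.getD (6 * y.1.val + y.2.val) []).map fun ab => (cell ab.1, cell ab.2)

theorem all_checks : ∀ y : Fin 4 × Fin 6, check (movesTo y) P y = true := by
  decide +kernel

theorem solvable : Solvable (grid 4 6) P := fun y => canReach_of_check _ _ _ (all_checks y)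

theorem reach : ∀ y : Fin 4 × Fin 6, (grid 4 6).Reachable (1, 2) y := by
  have row : ∀ (i : Fin 4) (j : Fin 5), (grid 4 6).Reachable (i, j.castSucc) (i, j.succ) :=
    fun i j => SimpleGraph.Adj.reachable (Or.inl ⟨rfl, Or.inl rfl⟩)
  have col : ∀ (i : Fin 3) (j : Fin 6), (grid 4 6).Reachable (i.castSucc, j) (i.succ, j) :=
    fun i j => SimpleGraph.Adj.reachable (Or.inr ⟨rfl, Or.inl rfl⟩)
  have h0 : ∀ j : Fin 6, (grid 4 6).Reachable (0, 0) (0, j) := by
    intro j
    induction j using Fin.induction with
    | zero => exact SimpleGraph.Reachable.refl _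
    | succ j ih => exact ih.trans (row 0 j)
  have h1 : ∀ (i : Fin 4) (j : Fin 6), (grid 4 6).Reachable (0, 0) (i, j) := by
    intro i j
    induction i using Fin.induction with
    | zero => exact h0 j
    | succ i ih => exact ih.trans (col i j)
  intro y
  exact (h1 1 2).symm.trans (h1 y.1 y.2)

theorem value_le : value (grid 4 6) P (1, 2) ≤ 23 / 16 := by
  have hle : value (grid 4 6) P (1, 2) ≤
      ∑ y : Fin 4 × Fin 6, (P y : ℝ) * (1 / 2 : ℝ) ^ (manh ((1, 2) : Fin 4 × Fin 6) y) := by
    unfold value
    refine Finset.sum_le_sum fun y _ => ?_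
    refine mul_le_mul_of_nonneg_left ?_ (Nat.cast_nonneg _)
    exact pow_le_pow_of_le_one (by norm_num) (by norm_num) (manh_le_dist (reach y))
  refine hle.trans (le_of_eq ?_)
  rw [Fintype.sum_prod_type]
  simp [Fin.sum_univ_succ, P, manh]
  norm_num

/-- **There are a grid, a solvable pebbling distribution on it and an interior vertex whose value is
smaller than `3/2`.** -/
theorem result : ∃ (m n : ℕ) (P : Fin m × Fin n → ℕ) (X : Fin m × Fin n),
    Solvable (grid m n) P ∧ Interior X ∧ value (grid m n) P X < 3 / 2 :=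
  ⟨4, 6, P, (1, 2), solvable, by unfold Interior; decide,
    lt_of_le_of_lt value_le (by norm_num)⟩

end Pool.Agent.Results.MP_33b0ad_co.FourBySix
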